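import Pool.Agent.W276.GE.Stm
import Pool.Agent.H503R3.QCI.Hilb

/-! # Project GE: permutations of regular sequences of forms -/

set_option autoImplicit false

namespace Pool.Agent.W85.GE

open MvPolynomial Pool.Agent.W276.GE H503R3.QCI
open scoped Pointwise

theorem perm : S_perm := by
  intro n l l' hl hperm h
  refine h.prototype_perm hperm ?_
  intro a b rs' hsub
  have hmem : ∀ f ∈ a :: b :: rs', ∃ e, 1 ≤ e ∧ f.IsHomogeneous e := fun f hf => hl f (hsub.subset hf)
  obtain ⟨ea, hea, ha⟩ := hmem a (by simp)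
  obtain ⟨eb, heb, hb⟩ := hmem b (by simp)
  have hrs : ∀ f ∈ rs', ∃ e, f.IsHomogeneous e := fun f hf => by
    obtain ⟨e, -, he⟩ := hmem f (by simp [hf])
    exact ⟨e, he⟩
  intro K hK
  have hI : Homog (Ideal.ofList rs') := homog_span (fun x hx => hrs x hx)
  have hN : ∀ x : MvPolynomial (Fin n) ℂ, x ∈ (Ideal.ofList rs' • ⊤ :
      Submodule (MvPolynomial (Fin n) ℂ) (MvPolynomial (Fin n) ℂ)) ↔ x ∈ Ideal.ofList rs' := by
    intro x
    rw [smul_eq_mul, Ideal.mul_top]
  have hKm : ∀ u : MvPolynomial (Fin n) ℂ, (Submodule.Quotient.mk u : MvPolynomial (Fin n) ℂ ⧸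
      (Ideal.ofList rs' • ⊤ : Submodule (MvPolynomial (Fin n) ℂ) (MvPolynomial (Fin n) ℂ))) ∈ K ↔
      b * u ∈ Ideal.ofList rs' := by
    intro u
    rw [Submodule.mem_torsionBy_iff, ← Submodule.Quotient.mk_smul, Submodule.Quotient.mk_eq_zero, hN,
      smul_eq_mul]
  -- homogeneous elements
  have key : ∀ s : ℕ, ∀ u : MvPolynomial (Fin n) ℂ, u.IsHomogeneous s → b * u ∈ Ideal.ofList rs' →
      u ∈ Ideal.ofList rs' := by
    intro s
    induction s using Nat.strong_induction_on with
    | _ s ih =>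
      intro u hu hbu
      have h1 := (hKm u).2 hbu
      rw [hK] at h1
      obtain ⟨y, hy, hyu⟩ := (Submodule.mem_smul_pointwise_iff_exists _ _ _).1 h1
      obtain ⟨v, rfl⟩ := Submodule.Quotient.mk_surjective _ y
      have hv := (hKm v).1 hy
      have h2 : a * v - u ∈ Ideal.ofList rs' := by
        rw [← Submodule.Quotient.mk_smul, Submodule.Quotient.eq, hN, smul_eq_mul] at hyu
        exact hyu
      have h3 := hI _ h2 s
      rw [map_sub, homogeneousComponent_of_mem hu, if_pos rfl] at h3
      rcases Nat.lt_or_ge s ea with hs | hs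
      · rw [comp_mul_of_lt ha hs, zero_sub] at h3
        exact neg_mem_iff.1 h3
      · obtain ⟨k, rfl⟩ := Nat.exists_eq_add_of_le hs
        rw [comp_mul ha] at h3
        have h4 := hI _ hv (eb + k)
        rw [comp_mul hb] at h4
        have h5 := ih k (by omega) _ (homogeneousComponent_isHomogeneous k v) h4
        have h6 := Ideal.mul_mem_left _ a h5
        have h7 := sub_mem h6 h3
        rwa [sub_sub_cancel] at h7
  rw [eq_bot_iff]
  intro x hx
  obtain ⟨u, rfl⟩ := Submodule.Quotient.mk_surjective _ x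
  have hu := (hKm u).1 hx
  rw [Submodule.mem_bot, Submodule.Quotient.mk_eq_zero, hN, ← sum_homogeneousComponent u]
  refine sum_mem fun k _ => ?_
  have h4 := hI _ hu (eb + k)
  rw [comp_mul hb] at h4
  exact key k _ (homogeneousComponent_isHomogeneous k u) h4

end Pool.Agent.W85.GE
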